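import Mathlib
import Pool.Agent.H82.SelPs

set_option autoImplicit false

namespace Pool.Agent.Results.MP_c4a8f9_gt.NotInvariant

open Set Filter Topology Pool.Agent.H82.SelPs

/-- selectively sequentially pseudocompact -/
def SelSeqPs (Z : Type) [TopologicalSpace Z] : Prop :=
  ∀ U : ℕ → Set Z, (∀ n, IsOpen (U n)) → (∀ n, (U n).Nonempty) →
    ∃ x : ℕ → Z, (∀ n, x n ∈ U n) ∧ ∃ (φ : ℕ → ℕ) (a : Z), StrictMono φ ∧
      Tendsto (x ∘ φ) atTop (𝓝 a)

/-- selectively pseudocompact -/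
def SelPs (Z : Type) [TopologicalSpace Z] : Prop :=
  ∀ U : ℕ → Set Z, (∀ n, IsOpen (U n)) → (∀ n, (U n).Nonempty) →
    (∀ n m, n ≠ m → Disjoint (U n) (U m)) →
    ∃ x : ℕ → Z, (∀ n, x n ∈ U n) ∧ ¬ IsClosed (range x)

/-- the group of continuous maps with the pointwise topology -/
def Cp (Z G : Type) [TopologicalSpace Z] [AddCommGroup G] [TopologicalSpace G]
    [IsTopologicalAddGroup G] : AddSubgroup (Z → G) where
  carrier := {f | Continuous f}
  zero_mem' := continuous_const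
  add_mem' := fun hf hg => Continuous.add hf hg
  neg_mem' := fun hf => Continuous.neg hf

lemma imp {Z : Type} [TopologicalSpace Z] (h : SelSeqPs Z) : SelPs Z := by
  intro U hU hne hd
  obtain ⟨x, hx, φ, a, hφ, ha⟩ := h U hU hne
  refine ⟨x, hx, fun hc => ?_⟩
  obtain ⟨m, rfl⟩ := hc.mem_of_tendsto ha (Eventually.of_forall fun n => ⟨_, rfl⟩)
  obtain ⟨n, h1, h2⟩ := ((ha.eventually ((hU m).mem_nhds (hx m))).and
    (hφ.tendsto_atTop.eventually (eventually_gt_atTop m))).exists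
  exact Set.disjoint_left.1 (hd _ _ h2.ne') (hx _) h1

theorem result : ∃ (X Y : Type) (_ : TopologicalSpace X) (_ : TopologicalSpace Y),
    T35Space X ∧ T35Space Y ∧ SelSeqPs X ∧ SelPs X ∧ ¬ SelSeqPs Y ∧ ¬ SelPs Y ∧
    ∀ (G : Type) [AddCommGroup G] [TopologicalSpace G] [IsTopologicalAddGroup G],
      Dense (Cp X G : Set (X → G)) ∧ Dense (Cp Y G : Set (Y → G)) ∧
      Nonempty (Cp X G ≃ₜ+ Cp Y G) := by
  have hY : ¬ SelPs Y := fun h => by
    obtain ⟨x, hx, hc⟩ := h UY UY_open UY_ne fun n m hnm => UY_disj hnm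
    exact hc (UY_closed x hx)
  refine ⟨X, Y, inferInstance, inferInstance, Pool.Agent.H82.FS.t35_sum, t35Y, sspX, imp sspX,
    fun h => hY (imp h), hY, fun G _ _ _ => ⟨dense_of_sep sepX, dense_of_sep sepY, ⟨?_⟩⟩⟩
  exact
    { toFun := fun g => ⟨SS g.1, SS_cont g.2⟩
      invFun := fun f => ⟨TT f.1, TT_cont f.2⟩
      left_inv := fun g => Subtype.ext (TS g.1)
      right_inv := fun f => Subtype.ext (ST f.1)
      map_add' := fun f g => Subtype.ext (SS_add f.1 g.1)
      continuous_toFun := (SS_ptw.comp continuous_subtype_val).subtype_mk _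
      continuous_invFun := (TT_ptw.comp continuous_subtype_val).subtype_mk _ }

end Pool.Agent.Results.MP_c4a8f9_gt.NotInvariant
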